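import Mathlib

set_option autoImplicit false

open Cardinal

universe u

namespace Pool.Agent.H66Z.TP

/-- A graph `P` is a path in the transfinite sense: some well-ordering `r` of its vertices is such
that for each vertex `v` the neighbours of `v` preceding `v` are cofinal among the predecessors
of `v`. -/
def IsTransPath {W : Type u} (P : SimpleGraph W) : Prop :=
  ∃ r : W → W → Prop, IsWellOrder W r ∧
    ∀ v u, r u v → ∃ w, P.Adj v w ∧ r w v ∧ (u = w ∨ r u w)

/-- The graph formed by the two-element sets of colour `i`. -/
def colourGraph {V : Type u} (c : Sym2 V → ℕ) (i : ℕ) : SimpleGraph V :=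
  SimpleGraph.fromEdgeSet {e | c e = i}

/-- `κ` is infinite and every colouring of the pairs of `κ` by natural numbers has a monochromatic
path of size `κ`. -/
def InP (κ : Cardinal.{u}) : Prop :=
  ℵ₀ ≤ κ ∧ ∀ c : Sym2 κ.ord.ToType → ℕ, ∃ i : ℕ, ∃ H : (colourGraph c i).Subgraph,
    IsTransPath H.coe ∧ #H.verts = κ

end Pool.Agent.H66Z.TP
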