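import Pool.Agent.H66Z.TP.Neg

set_option autoImplicit false

open Cardinal hiding univ
open Set Ordinal

universe u

namespace Pool.Agent.H66Z.TP

lemma cof_beth {o : Ordinal.{u}} (ho : Order.IsSuccLimit o) : (ℶ_ o).ord.cof = o.cof :=
  cof_map_of_isNormal (f := fun o => (ℶ_ o).ord) (isNormal_ord.comp isNormal_beth) ho

theorem isLeast_beth : IsLeast {κ : Cardinal.{u} | κ.IsStrongLimit ∧ InP κ} (ℶ_ (ω_ 2)) := by
  have hlim : Order.IsSuccLimit (ω_ 2 : Ordinal.{u}) := isSuccLimit_omega 2
  have h2 : (2 : Ordinal.{u}) = 1 + 1 := one_add_one_eq_two.symm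
  have hcof : (ℶ_ (ω_ 2 : Ordinal.{u})).ord.cof = ℵ_ 2 := by
    rw [cof_beth hlim, h2, cof_omega_add_one]
  have hsl : (ℶ_ (ω_ 2 : Ordinal.{u})).IsStrongLimit := isStrongLimit_beth.2 hlim.isSuccPrelimit
  refine ⟨⟨hsl, inP_of_cof hsl ?_ ?_⟩, ?_⟩
  · rw [hcof]
    refine (aleph_le_beth 2).trans_lt (beth_lt_beth.2 ?_)
    exact (natCast_lt_omega0 2).trans_le (omega0_le_omega 2)
  · rw [hcof, aleph_lt_aleph]
    exact one_lt_two
  · rintro κ ⟨hκ, hP⟩
    have hc : ℵ₁ < κ.ord.cof := not_le.1 fun h => not_inP_of_cof h hP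
    have key : ∀ o : Ordinal.{u}, o < ω_ 2 → ℶ_ o < κ := by
      intro o
      induction o using Ordinal.limitRecOn with
      | zero =>
        intro _
        rw [beth_zero]
        exact aleph0_lt_aleph_one.trans (hc.trans_le (cof_ord_le κ))
      | add_one o ih =>
        intro ho
        rw [beth_add_one]
        exact hκ.isStrongPrelimit (ih ((Order.lt_succ o).trans ho))
      | limit o ho ih =>
        intro ho2
        have hle : ℶ_ o ≤ κ := by
          rw [beth_limit ho]
          exact ciSup_le' fun a => (ih a a.2 (a.2.trans ho2)).le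
        refine lt_of_le_of_ne hle ?_
        rintro rfl
        rw [cof_beth ho] at hc
        have h3 : o.card < ℵ_ 2 := by rwa [← lt_ord, ord_aleph]
        rw [h2, aleph_add_one, Order.lt_succ_iff] at h3
        exact absurd (hc.trans_le (cof_le_card o)) (not_lt.2 h3)
    rw [beth_limit hlim]
    exact ciSup_le' fun a => (key a a.2).le

end Pool.Agent.H66Z.TP
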