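import Pool.Agent.H66Z.TP.Pos

set_option autoImplicit false

open Cardinal hiding univ
open Set

universe u

namespace Pool.Agent.H66Z.TP

/-- From an injective enumeration to a monochromatic path. -/
lemma path_of_enum {V I : Type u} [LinearOrder I] [WellFoundedLT I] (G : SimpleGraph V)
    (Φ : I → V) (hΦ : Function.Injective Φ)
    (h : ∀ v u, u < v → ∃ w, u ≤ w ∧ w < v ∧ G.Adj (Φ v) (Φ w)) :
    ∃ H : G.Subgraph, IsTransPath H.coe ∧ #H.verts = #I := by
  let H : G.Subgraph := (⊤ : G.Subgraph).induce (range Φ)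
  let e : I ≃ H.verts := Equiv.ofInjective Φ hΦ
  refine ⟨H, ⟨fun a b => e.symm a < e.symm b, ?_, ?_⟩, (mk_congr e).symm⟩
  · exact (RelEmbedding.preimage e.symm.toEmbedding (· < ·)).isWellOrder
  · intro v u huv
    obtain ⟨w, h1, h2, h3⟩ := h _ _ huv
    refine ⟨e w, ?_, by simpa using h2, ?_⟩
    · have hv : Φ (e.symm v) = v := by
        have := congrArg Subtype.val (e.apply_symm_apply v)
        exact this
      simp only [SimpleGraph.Subgraph.coe_adj, H, SimpleGraph.Subgraph.induce_adj,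
        SimpleGraph.Subgraph.top_adj]
      refine ⟨v.2, (e w).2, ?_⟩
      rw [← hv]
      exact h3
    · rcases h1.eq_or_lt with h1 | h1
      · left
        rw [← h1]; simp
      · right
        simpa using h1

lemma lex_step {J : Type u} [LinearOrder J] (A : J ×ₗ ℕ → J ×ₗ ℕ → Prop)
    (ha : ∀ q n, A (toLex (q, n + 1)) (toLex (q, n)))
    (hb : ∀ q q', q' < q → ∀ n', ∃ q'' n'', (q' < q'' ∨ (q' = q'' ∧ n' ≤ n'')) ∧ q'' < q ∧
      A (toLex (q, 0)) (toLex (q'', n''))) :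
    ∀ v u, u < v → ∃ w, u ≤ w ∧ w < v ∧ A v w := by
  intro v u huv
  obtain ⟨⟨q, n⟩, rfl⟩ := toLex.surjective v
  obtain ⟨⟨q', n'⟩, rfl⟩ := toLex.surjective u
  rw [Prod.Lex.toLex_lt_toLex] at huv
  cases n with
  | zero =>
    have hq : q' < q := by
      rcases huv with h | ⟨_, h⟩
      · exact h
      · exact absurd h (Nat.not_lt_zero _)
    obtain ⟨q'', n'', h1, h2, h3⟩ := hb q q' hq n'
    refine ⟨toLex (q'', n''), ?_, ?_, h3⟩
    · rw [Prod.Lex.toLex_le_toLex]; exact h1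
    · rw [Prod.Lex.toLex_lt_toLex]; exact Or.inl h2
  | succ n =>
    refine ⟨toLex (q, n), ?_, ?_, ha q n⟩
    · rw [Prod.Lex.toLex_le_toLex]
      rcases huv with h | ⟨h, h'⟩
      · exact Or.inl h
      · exact Or.inr ⟨h, Nat.lt_succ_iff.1 h'⟩
    · rw [Prod.Lex.toLex_lt_toLex]; exact Or.inr ⟨rfl, Nat.lt_succ_self n⟩

theorem main_types {V M : Type u} [LinearOrder V] [WellFoundedLT V] [LinearOrder M]
    [WellFoundedLT M] (hV : (#V).IsStrongLimit) (hMV : #M < #V) (h1 : ℵ₁ < #M)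
    (hb : ∀ s : Set M, #s < #M → ∃ a, ∀ x ∈ s, x < a) (hseg : ∀ a : M, #(Iic a) < #M)
    (T : M → Set V) (hT : ∀ η, #(T η) < #V) (hcov : ∀ x, ∃ η, x ∈ T η) (hmono : Monotone T)
    (t₀ : V) (ht₀ : ∀ t, t₀ ≤ t) (ht₀T : ∀ η, t₀ ∈ T η) (c : Sym2 V → ℕ) :
    ∃ i : ℕ, ∃ H : (colourGraph c i).Subgraph, IsTransPath H.coe ∧ #H.verts = #V := by
  classical
  have hM0 : ℵ₀ < #M := aleph0_lt_aleph_one.trans h1
  have h0 : ℵ₀ < #V := hM0.trans hMV
  have : Nonempty M := mk_ne_zero_iff.1 (bot_le.trans_lt hM0).ne'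
  have : Nonempty V := ⟨t₀⟩
  obtain ⟨S, piece, f, d, hpiece, hSf, hScard, hcan⟩ :=
    canon hV h0 hMV T hT hcov (fun x y => c s(x, y))
  obtain ⟨j, r, hjr⟩ := double_star hb h1 d f
  choose s' s hξ hs's hfs' hfr hdr hds' using hjr
  obtain ⟨X0, hX0, hXG⟩ := spread hb hM0.le s
  let X : Set M := {ξ ∈ X0 | r < ξ}
  have hunb : ∀ a, ∃ ξ ∈ X, a ≤ ξ := by
    intro a
    by_contra hcon
    push Not at hcon
    have : X0 ⊆ Iic (max a r) := by
      intro x hx
      by_cases hr : r < x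
      · exact (hcon x ⟨hx, hr⟩).le.trans (le_max_left _ _)
      · exact (not_lt.1 hr).trans (le_max_right _ _)
    exact absurd ((mk_le_mk_of_subset this).trans_lt (hseg _)) (by rw [hX0]; exact lt_irrefl _)
  have hE : ∀ η, ∃ E : V × ℕ → V, InjOn E (T η ×ˢ univ) ∧ MapsTo E (T η ×ˢ univ) (S η) := by
    intro η
    apply exists_injOn
    refine le_trans ?_ (hScard η).le
    rw [mk_congr (Equiv.Set.prod _ _), mk_prod]
    simp only [mk_univ, mk_nat, lift_aleph0, lift_uzero]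
    refine (mul_le_max _ _).trans (max_le (max_le (le_max_left _ _) ?_) ?_) <;>
      exact (le_max_right _ _).trans (le_max_right _ _)
  choose E hEinj hEmap using hE
  obtain ⟨h, hhinj, hhmap⟩ := exists_injOn (univ : Set M) (S r) (by
    rw [mk_univ]
    exact ((le_max_left _ _).trans (le_max_right _ _)).trans (hScard r).le)
  let J := {q : M ×ₗ V // (ofLex q).1 ∈ X ∧ (ofLex q).2 ∈ T (ofLex q).1}
  let Ψ : M → V → ℕ → V := fun ξ t n =>
    if Odd n then E (s ξ) (t, n) else if t = t₀ ∧ n = 0 then h ξ else E (s' ξ) (t, n)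
  have hodd : ∀ ξ t n, t ∈ T ξ → Odd n → Ψ ξ t n ∈ S (s ξ) := by
    intro ξ t n ht hn
    simp only [Ψ, if_pos hn]
    exact hEmap _ ⟨hmono ((hξ ξ).trans (hs's ξ)).le ht, trivial⟩
  have hhub : ∀ ξ, Ψ ξ t₀ 0 ∈ S r := by
    intro ξ
    simp only [Ψ, Nat.not_odd_zero, if_false, and_self, if_true]
    exact hhmap trivial
  have heven : ∀ ξ t n, t ∈ T ξ → ¬ Odd n → ¬ (t = t₀ ∧ n = 0) → Ψ ξ t n ∈ S (s' ξ) := by
    intro ξ t n ht hn hn'
    simp only [Ψ, if_neg hn, if_neg hn']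
    exact hEmap _ ⟨hmono (hξ ξ).le ht, trivial⟩
  have hadj1 : ∀ ξ, r < ξ → ∀ x ∈ S r, ∀ y ∈ S (s ξ), (colourGraph c j).Adj x y := by
    intro ξ hr x hx y hy
    simp only [colourGraph, SimpleGraph.fromEdgeSet_adj, mem_ofPred_eq]
    refine ⟨(hcan r (s ξ) x hx y hy (hmono (hfr ξ).le (hSf r hx))).trans (hdr ξ), ?_⟩
    rintro rfl
    have := (hpiece _ _ hx).symm.trans (hpiece _ _ hy)
    exact absurd this (hr.trans ((hξ ξ).trans (hs's ξ))).ne
  have hadj2 : ∀ ξ, ∀ x ∈ S (s' ξ), ∀ y ∈ S (s ξ), (colourGraph c j).Adj x y := by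
    intro ξ x hx y hy
    simp only [colourGraph, SimpleGraph.fromEdgeSet_adj, mem_ofPred_eq]
    refine ⟨(hcan _ (s ξ) x hx y hy (hmono (hfs' ξ).le (hSf _ hx))).trans (hds' ξ), ?_⟩
    rintro rfl
    have := (hpiece _ _ hx).symm.trans (hpiece _ _ hy)
    exact absurd this (hs's ξ).ne
  have hadj3 : ∀ ξ t n t' n', r < ξ → t ∈ T ξ → t' ∈ T ξ → ¬ Odd n → Odd n' →
      (colourGraph c j).Adj (Ψ ξ t n) (Ψ ξ t' n') := by
    intro ξ t n t' n' hr ht ht' hn hn'
    by_cases hh : t = t₀ ∧ n = 0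
    · obtain ⟨rfl, rfl⟩ := hh
      exact hadj1 ξ hr _ (hhub ξ) _ (hodd ξ t' n' ht' hn')
    · exact hadj2 ξ _ (heven ξ t n ht hn hh) _ (hodd ξ t' n' ht' hn')
  let Φ : J ×ₗ ℕ → V := fun p => Ψ (ofLex (ofLex p).1.1).1 (ofLex (ofLex p).1.1).2 (ofLex p).2
  have hsep : ∀ a ∈ X, ∀ b ∈ X, a < b → s a < b := fun a ha b hb hab => hXG a ha.1 b hb.1 hab
  have hΨinj : ∀ ξ t n ξ' t' n', ξ ∈ X → ξ' ∈ X → t ∈ T ξ → t' ∈ T ξ' → Ψ ξ t n = Ψ ξ' t' n' →
      ξ = ξ' ∧ t = t' ∧ n = n' := by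
    intro ξ t n ξ' t' n' hX hX' ht ht' heq
    have hp := congrArg piece heq
    have a1 := hξ ξ
    have a2 := hs's ξ
    have a3 := hξ ξ'
    have a4 := hs's ξ'
    have a5 : r < ξ := hX.2
    have a6 : r < ξ' := hX'.2
    have a7 := hsep ξ hX ξ' hX'
    have a8 := hsep ξ' hX' ξ hX
    by_cases hn : Odd n <;> by_cases hn' : Odd n'
    · rw [hpiece _ _ (hodd ξ t n ht hn), hpiece _ _ (hodd ξ' t' n' ht' hn')] at hp
      have hξξ : ξ = ξ' := by
        rcases lt_trichotomy ξ ξ' with hl | hl | hl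
        · have := a7 hl; order
        · exact hl
        · have := a8 hl; order
      subst hξξ
      simp only [Ψ, if_pos hn, if_pos hn'] at heq
      have := hEinj _ ⟨hmono (a1.trans a2).le ht, trivial⟩ ⟨hmono (a1.trans a2).le ht', trivial⟩ heq
      simpa using this
    · exfalso
      rw [hpiece _ _ (hodd ξ t n ht hn)] at hp
      by_cases hh : t' = t₀ ∧ n' = 0
      · obtain ⟨rfl, rfl⟩ := hh
        rw [hpiece _ _ (hhub ξ')] at hp
        order
      · rw [hpiece _ _ (heven ξ' t' n' ht' hn' hh)] at hp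
        rcases lt_trichotomy ξ ξ' with hl | hl | hl
        · have := a7 hl; order
        · subst hl; order
        · have := a8 hl; order
    · exfalso
      rw [hpiece _ _ (hodd ξ' t' n' ht' hn')] at hp
      by_cases hh : t = t₀ ∧ n = 0
      · obtain ⟨rfl, rfl⟩ := hh
        rw [hpiece _ _ (hhub ξ)] at hp
        order
      · rw [hpiece _ _ (heven ξ t n ht hn hh)] at hp
        rcases lt_trichotomy ξ ξ' with hl | hl | hl
        · have := a7 hl; order
        · subst hl; order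
        · have := a8 hl; order
    · by_cases hh : t = t₀ ∧ n = 0 <;> by_cases hh' : t' = t₀ ∧ n' = 0
      · simp only [Ψ, if_neg hn, if_neg hn', if_pos hh, if_pos hh'] at heq
        exact ⟨hhinj trivial trivial heq, hh.1.trans hh'.1.symm, hh.2.trans hh'.2.symm⟩
      · exfalso
        obtain ⟨rfl, rfl⟩ := hh
        rw [hpiece _ _ (hhub ξ), hpiece _ _ (heven ξ' t' n' ht' hn' hh')] at hp
        order
      · exfalso
        obtain ⟨rfl, rfl⟩ := hh'
        rw [hpiece _ _ (hhub ξ'), hpiece _ _ (heven ξ t n ht hn hh)] at hp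
        order
      · rw [hpiece _ _ (heven ξ t n ht hn hh), hpiece _ _ (heven ξ' t' n' ht' hn' hh')] at hp
        have hξξ : ξ = ξ' := by
          rcases lt_trichotomy ξ ξ' with hl | hl | hl
          · have := a7 hl; order
          · exact hl
          · have := a8 hl; order
        subst hξξ
        simp only [Ψ, if_neg hn, if_neg hn', if_neg hh, if_neg hh'] at heq
        have := hEinj _ ⟨hmono a1.le ht, trivial⟩ ⟨hmono a1.le ht', trivial⟩ heq
        simpa using this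
  have hΦ : Function.Injective Φ := by
    intro p p' hpp
    obtain ⟨⟨⟨q, hq⟩, n⟩, rfl⟩ := toLex.surjective p
    obtain ⟨⟨⟨q', hq'⟩, n'⟩, rfl⟩ := toLex.surjective p'
    obtain ⟨e1, e2, e3⟩ := hΨinj _ _ _ _ _ _ hq.1 hq'.1 hq.2 hq'.2 hpp
    have : q = q' := ofLex.injective (Prod.ext e1 e2)
    subst this
    simp only [ofLex_toLex] at e3
    subst e3
    rfl
  have hpath := lex_step (J := J) (fun v w => (colourGraph c j).Adj (Φ v) (Φ w)) (by
      rintro ⟨q, hq⟩ n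
      by_cases hn : Odd n
      · exact hadj3 _ _ _ _ _ hq.1.2 hq.2 hq.2 (by simpa [Nat.odd_add_one] using hn) hn
      · exact (hadj3 _ _ _ _ _ hq.1.2 hq.2 hq.2 hn (by simpa [Nat.odd_add_one] using hn)).symm)
    (by
      rintro ⟨q, hq⟩ ⟨q', hq'⟩ hlt n'
      obtain ⟨⟨ξ, t⟩, rfl⟩ := toLex.surjective q
      obtain ⟨⟨ξ', t'⟩, rfl⟩ := toLex.surjective q'
      have hlt' := hlt
      rw [Subtype.mk_lt_mk, Prod.Lex.toLex_lt_toLex] at hlt'
      simp only [ofLex_toLex] at hq hq'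
      have hodd' : Odd (2 * n' + 1) := ⟨n', rfl⟩
      by_cases ht : t = t₀
      · subst ht
        exact ⟨⟨toLex (ξ', t'), hq'⟩, 2 * n' + 1, Or.inr ⟨rfl, by omega⟩, hlt,
          hadj1 ξ' hq'.1.2 _ (hhub ξ) _ (hodd ξ' t' _ hq'.2 hodd')⟩
      · rcases hlt' with hl | ⟨hl, _⟩
        · refine ⟨⟨toLex (ξ, t₀), hq.1, ht₀T ξ⟩, 1, Or.inl ?_, ?_, ?_⟩
          · rw [Subtype.mk_lt_mk, Prod.Lex.toLex_lt_toLex]; exact Or.inl hl
          · rw [Subtype.mk_lt_mk, Prod.Lex.toLex_lt_toLex]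
            exact Or.inr ⟨rfl, lt_of_le_of_ne (ht₀ t) (Ne.symm ht)⟩
          · exact hadj3 _ _ _ _ _ hq.1.2 hq.2 (ht₀T ξ) Nat.not_odd_zero odd_one
        · simp only at hl
          subst hl
          exact ⟨⟨toLex (ξ', t'), hq'⟩, 2 * n' + 1, Or.inr ⟨rfl, by omega⟩, hlt,
            hadj3 _ _ _ _ _ hq.1.2 hq.2 hq'.2 Nat.not_odd_zero hodd'⟩)
  obtain ⟨H, hH, hHc⟩ := path_of_enum (colourGraph c j) Φ hΦ hpath
  refine ⟨j, H, hH, le_antisymm (mk_set_le _) ?_⟩
  rw [hHc]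
  have : ∀ x, ∃ ξ ∈ X, x ∈ T ξ := by
    intro x
    obtain ⟨η, hη⟩ := hcov x
    obtain ⟨ξ, hξX, hle⟩ := hunb η
    exact ⟨ξ, hξX, hmono hle hη⟩
  choose g hg1 hg2 using this
  refine mk_le_of_injective (f := fun x => toLex (⟨toLex (g x, x), hg1 x, hg2 x⟩, 0)) ?_
  intro x y hxy
  have := congrArg (fun p : J ×ₗ ℕ => (ofLex (ofLex p).1.1).2) hxy
  simpa using this

/-- A cofinal skeleton of an initial well-order. -/
lemma exists_skeleton (κ : Cardinal.{u}) (h0 : ℵ₀ ≤ κ) :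
    ∃ M : Set κ.ord.ToType, IsCofinal M ∧ #M = κ.ord.cof ∧
      (∀ s : Set M, #s < #M → ∃ a, ∀ x ∈ s, x < a) ∧ (∀ a : M, #(Iic a) < #M) := by
  obtain ⟨M, hM, hMt⟩ := Ordinal.exists_ord_cof_eq κ.ord.ToType
  have hc : #M = κ.ord.cof := by
    have := congrArg Ordinal.card hMt
    simpa using this
  have hinf : ℵ₀ ≤ #M := by
    rw [hc]; exact Ordinal.aleph0_le_cof_iff.2 (Ordinal.one_lt_cof_iff.2 (isSuccLimit_ord h0))
  refine ⟨M, hM, hc, ?_, fun a => mk_Iic_lt a (by rw [hMt, hc]; simp) hinf⟩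
  intro s hs
  have : ¬ IsCofinal s := by
    intro hcof
    have := Order.cof_le hcof
    rw [Order.cof_eq_of_isCofinal hM, Ordinal.cof_toType, ← hc] at this
    exact absurd hs (not_lt.2 this)
  simpa [IsCofinal] using this

theorem inP_of_cof {κ : Cardinal.{u}} (hκ : κ.IsStrongLimit) (hs : κ.ord.cof < κ)
    (h1 : ℵ₁ < κ.ord.cof) : InP κ := by
  have h0 := hκ.aleph0_le
  refine ⟨h0, fun c => ?_⟩
  obtain ⟨M, hM, hc, hb, hseg⟩ := exists_skeleton κ h0
  have hV : #κ.ord.ToType = κ := by simp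
  have : Nonempty κ.ord.ToType := by
    rw [← mk_ne_zero_iff, hV]; exact hκ.ne_zero
  have := main_types (V := κ.ord.ToType) (M := M) (hV.symm ▸ hκ) (by rw [hV, hc]; exact hs)
    (hc ▸ h1) hb hseg (fun η => Iic η.1)
    (fun η => mk_Iic_lt η.1 (by simp) (by rw [hV]; exact h0))
    (fun x => by
      obtain ⟨y, hy, hxy⟩ := hM x
      exact ⟨⟨y, hy⟩, hxy⟩)
    (fun a b hab => Iic_subset_Iic.2 hab)
    (wellFounded_lt.min univ univ_nonempty)
    (fun t => not_lt.1 (wellFounded_lt.not_lt_min univ (mem_univ t)))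
    (fun η => not_lt.1 (wellFounded_lt.not_lt_min univ (mem_univ η.1))) c
  rwa [hV] at this

end Pool.Agent.H66Z.TP
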