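import Pool.Agent.H66Z.TP.Main

set_option autoImplicit false

open Cardinal hiding univ
open Set

universe u

namespace Pool.Agent.H66Z.TP

lemma small_path {V M : Type u} (G : SimpleGraph V) (Z rank : V → M) (h0 : ℵ₀ ≤ #V)
    (hfib : ∀ a, #{x | rank x = a} < #V) (hZ : ∀ x y, G.Adj x y → Z x = Z y)
    (hr : ∀ x y, G.Adj x y → rank x = Z x ∨ rank y = Z y) (H : G.Subgraph)
    (hH : IsTransPath H.coe) : #H.verts < #V := by
  classical
  obtain ⟨r, hwo, hP⟩ := hH
  rcases isEmpty_or_nonempty H.verts with he | hne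
  · rw [mk_eq_zero]; exact aleph0_pos.trans_le h0
  have wf : WellFounded r := hwo.wf
  let m := wf.min univ univ_nonempty
  have hadj : ∀ v w : H.verts, H.coe.Adj v w → G.Adj v w := fun v w h => H.adj_sub h
  have hconst : ∀ v : H.verts, Z v = Z m := by
    intro v
    induction v using wf.induction with
    | _ v ih =>
      rcases trichotomous_of r m v with h | h | h
      · obtain ⟨w, h1, h2, _⟩ := hP v m h
        rw [hZ _ _ (hadj _ _ h1), ih w h2]
      · rw [h]
      · exact absurd h (wf.not_lt_min univ (mem_univ v))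
  let T : Set H.verts := {w | rank w = Z m}
  have hT : #T < #V := by
    refine lt_of_le_of_lt ?_ (hfib (Z m))
    refine mk_le_of_injective (f := fun w => ⟨w.1.1, w.2⟩) ?_
    intro a b hab
    simpa [Subtype.ext_iff] using hab
  let A : Set H.verts := {v | (∃ w, r v w) ∧ v ∉ T}
  let B : Set H.verts := {v | ¬ ∃ w, r v w}
  have hsucc : ∀ v : A, ∃ w : T, r v w ∧ ∀ z, r v z → ¬ r z w := by
    rintro ⟨v, hv, hvT⟩
    let w := wf.min {w | r v w} hv
    have hw : r v w := wf.min_mem {w | r v w} hv
    have hmin : ∀ z, r v z → ¬ r z w := fun z hz => wf.not_lt_min {w | r v w} hz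
    obtain ⟨z, h1, h2, h3⟩ := hP w v hw
    have hz : v = z := h3.resolve_right fun h => hmin z h h2
    subst hz
    refine ⟨⟨w, ?_⟩, hw, hmin⟩
    rcases hr _ _ (hadj _ _ h1) with h | h
    · exact h.trans (hconst w)
    · exact absurd (h.trans (hconst v)) hvT
  choose sc hsc1 hsc2 using hsucc
  have hA : #A ≤ #T := by
    refine mk_le_of_injective (f := sc) ?_
    intro a b hab
    rcases trichotomous_of r a.1 b.1 with h | h | h
    · exact absurd (hab ▸ hsc1 b) (hsc2 a b h)
    · exact Subtype.ext h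
    · exact absurd (hab ▸ hsc1 a) (hsc2 b a h)
  have hB : #B ≤ 1 := by
    rw [le_one_iff_subsingleton]
    refine ⟨fun a b => ?_⟩
    rcases trichotomous_of r a.1 b.1 with h | h | h
    · exact absurd ⟨_, h⟩ a.2
    · exact Subtype.ext h
    · exact absurd ⟨_, h⟩ b.2
  have hcov : (univ : Set H.verts) ⊆ T ∪ A ∪ B := by
    intro v _
    by_cases h1 : v ∈ T
    · exact Or.inl (Or.inl h1)
    · by_cases h2 : ∃ w, r v w
      · exact Or.inl (Or.inr ⟨h2, h1⟩)
      · exact Or.inr h2
  rw [← mk_univ]
  refine (mk_le_mk_of_subset hcov).trans_lt ((mk_union_le _ _).trans_lt ?_)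
  exact add_lt_of_lt h0 ((mk_union_le _ _).trans_lt (add_lt_of_lt h0 hT (hA.trans_lt hT)))
    (hB.trans_lt (one_lt_aleph0.trans_le h0))

lemma star_colouring {M : Type u} [LinearOrder M] (h1 : #M ≤ ℵ₁)
    (hseg : ∀ a : M, #(Iic a) < #M) :
    ∃ D : M → M → ℕ, (∀ a a' b, a < b → a' < b → D a b = D a' b → a = a') ∧
      ∀ a b b', a < b → b < b' → D a b ≠ D b b' := by
  classical
  have he : ∀ b : M, ∃ e : M → ℕ, InjOn e (Iic b) := by
    intro b
    apply countable_iff_exists_injOn.1
    rw [← le_aleph0_iff_set_countable, ← Order.lt_succ_iff, succ_aleph0]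
    exact (hseg b).trans_le h1
  choose e he using he
  have hρ : ∃ ρ : M → ULift.{u} ℕ → Bool, Function.Injective ρ := by
    have : #M ≤ #(ULift.{u} ℕ → Bool) := by
      refine h1.trans ?_
      simpa using aleph_one_le_continuum
    obtain ⟨f⟩ := (Cardinal.le_def _ _).1 this
    exact ⟨f, f.injective⟩
  obtain ⟨ρ, hρ⟩ := hρ
  have hΔ : ∀ a b : M, ∃ n, a ≠ b → ρ a n ≠ ρ b n := by
    intro a b
    by_cases hab : a = b
    · exact ⟨⟨0⟩, fun h => absurd hab h⟩
    · obtain ⟨n, hn⟩ := Function.ne_iff.1 (hρ.ne hab)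
      exact ⟨n, fun _ => hn⟩
  choose Δ hΔ using hΔ
  refine ⟨fun a b => Encodable.encode (e b a, (Δ a b).down, ρ a (Δ a b)), ?_, ?_⟩
  · intro a a' b ha ha' h
    have := Encodable.encode_injective h
    exact he b ha.le ha'.le (congrArg Prod.fst this)
  · intro a b b' hab _ h
    have := Encodable.encode_injective h
    simp only [Prod.mk.injEq] at this
    obtain ⟨_, h2, h3⟩ := this
    have h4 : Δ a b = Δ b b' := ULift.ext _ _ h2
    rw [← h4] at h3
    exact hΔ a b hab.ne h3

theorem not_inP_of_cof {κ : Cardinal.{u}} (h1 : κ.ord.cof ≤ ℵ₁) : ¬ InP κ := by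
  classical
  rintro ⟨h0, hP⟩
  obtain ⟨M, hM, hc, _, hseg⟩ := exists_skeleton κ h0
  have hV : #κ.ord.ToType = κ := by simp
  obtain ⟨D, hD1, hD2⟩ := star_colouring (M := M) (hc ▸ h1) hseg
  have hrank : ∀ x : κ.ord.ToType, ∃ a : M, x ≤ a := fun x => by
    obtain ⟨y, hy, hxy⟩ := hM x
    exact ⟨⟨y, hy⟩, hxy⟩
  choose rank hrank using hrank
  have hfib : ∀ a, #{x | rank x = a} < #κ.ord.ToType := by
    intro a
    refine lt_of_le_of_lt (mk_le_mk_of_subset (t := Iic a.1) ?_)
      (mk_Iic_lt a.1 (by simp) (by rw [hV]; exact h0))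
    rintro x rfl
    exact hrank x
  let c : Sym2 κ.ord.ToType → ℕ := Sym2.lift ⟨fun x y => if rank x = rank y then 0 else
    D (min (rank x) (rank y)) (max (rank x) (rank y)) + 1, by
      intro x y
      simp only [eq_comm (a := rank x), min_comm (rank x), max_comm (rank x)]⟩
  obtain ⟨i, H, hH, hcard⟩ := hP c
  have hadj : ∀ x y, (colourGraph c i).Adj x y → (if rank x = rank y then 0 else
      D (min (rank x) (rank y)) (max (rank x) (rank y)) + 1) = i := by
    intro x y h
    simp only [colourGraph, SimpleGraph.fromEdgeSet_adj, mem_ofPred_eq] at h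
    exact h.1
  have h0' : ℵ₀ ≤ #κ.ord.ToType := by rw [hV]; exact h0
  refine absurd hcard (ne_of_lt (lt_of_lt_of_eq ?_ hV))
  cases i with
  | zero =>
    have : ∀ x y, (colourGraph c 0).Adj x y → rank x = rank y := by
      intro x y h
      have := hadj x y h
      by_contra hne
      simp [hne] at this
    exact small_path _ rank rank h0' hfib this (fun x y _ => Or.inl rfl) H hH
  | succ i =>
    let Z : κ.ord.ToType → M := fun x =>
      if h : ∃ a, a < rank x ∧ D a (rank x) = i then h.choose else rank x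
    have key : ∀ x y, rank x < rank y → D (rank x) (rank y) = i →
        Z x = rank x ∧ Z y = rank x := by
      intro x y hlt hD
      constructor
      · have : ¬ ∃ a, a < rank x ∧ D a (rank x) = i := by
          rintro ⟨a, ha, ha'⟩
          exact hD2 a _ _ ha hlt (ha'.trans hD.symm)
        simp only [Z, dif_neg this]
      · have : ∃ a, a < rank y ∧ D a (rank y) = i := ⟨_, hlt, hD⟩
        simp only [Z, dif_pos this]
        exact hD1 _ _ _ this.choose_spec.1 hlt (this.choose_spec.2.trans hD.symm)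
    have key2 : ∀ x y, (colourGraph c (i + 1)).Adj x y →
        Z x = Z y ∧ (rank x = Z x ∨ rank y = Z y) := by
      intro x y h
      have h' := hadj x y h
      rcases lt_trichotomy (rank x) (rank y) with hl | hl | hl
      · rw [if_neg hl.ne, min_eq_left hl.le, max_eq_right hl.le] at h'
        obtain ⟨a, b⟩ := key x y hl (by omega)
        exact ⟨a.trans b.symm, Or.inl a.symm⟩
      · rw [if_pos hl] at h'
        omega
      · rw [if_neg hl.ne', min_eq_right hl.le, max_eq_left hl.le] at h'
        obtain ⟨a, b⟩ := key y x hl (by omega)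
        exact ⟨b.trans a.symm, Or.inr a.symm⟩
    exact small_path _ Z rank h0' hfib (fun x y h => (key2 x y h).1)
      (fun x y h => (key2 x y h).2) H hH

end Pool.Agent.H66Z.TP
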