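import Pool.Agent.H66Z.TP.Defs

set_option autoImplicit false

open Cardinal Set

universe u

namespace Pool.Agent.H66Z.TP

lemma pigeon {β α : Type u} (s : Set β) (f : β → α) (θ : Cardinal.{u}) (h0 : ℵ₀ ≤ θ)
    (hα : #α ≤ θ) (hs : θ < #s) : ∃ t ⊆ s, θ < #t ∧ ∃ a, ∀ x ∈ t, f x = a := by
  obtain ⟨a, t, h, h1, h2⟩ := infinite_pigeonhole_set (s := s) (fun x => f x) (Order.succ θ)
    (Order.succ_le_of_lt hs) (h0.trans (Order.le_succ _))
    (by rw [(isRegular_succ h0).cof_ord]; exact hα.trans_lt (Order.lt_succ _))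
  exact ⟨t, h, (Order.lt_succ _).trans_le h1, a, fun x hx => h2 hx⟩

lemma exists_injOn {α β : Type u} [Nonempty β] (A : Set α) (B : Set β) (h : #A ≤ #B) :
    ∃ f : α → β, InjOn f A ∧ MapsTo f A B := by
  classical
  obtain ⟨e⟩ := (Cardinal.le_def _ _).1 h
  refine ⟨fun x => if hx : x ∈ A then (e ⟨x, hx⟩ : β) else Classical.arbitrary β, ?_, ?_⟩
  · intro x hx y hy hxy
    simp only [hx, hy, dif_pos] at hxy
    have := e.injective (Subtype.ext hxy)
    simpa using this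
  · intro x hx
    simp only [hx, dif_pos]
    exact (e ⟨x, hx⟩).2

lemma mk_fun_nat_lt {α : Type u} {κ : Cardinal.{u}} (hκ : κ.IsStrongLimit) (h0 : ℵ₀ < κ)
    (h : #α < κ) : #(α → ℕ) < κ := by
  have h1 : #(α → ℕ) = ℵ₀ ^ #α := by simp
  rw [h1]
  have h2 : max #α ℵ₀ < κ := max_lt h h0
  refine lt_of_le_of_lt ?_ (hκ.isStrongPrelimit h2)
  calc ℵ₀ ^ #α ≤ ℵ₀ ^ (max #α ℵ₀) := power_le_power_left aleph0_ne_zero (le_max_left _ _)
    _ = 2 ^ (max #α ℵ₀) :=
      power_eq_two_power (le_max_right _ _) (natCast_le_aleph0 (n := 2)) (le_max_right _ _)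

lemma spread {M : Type u} [LinearOrder M]
    (hb : ∀ s : Set M, #s < #M → ∃ a, ∀ x ∈ s, x < a) (h0 : ℵ₀ ≤ #M) (G : M → M) :
    ∃ X : Set M, #X = #M ∧ ∀ a ∈ X, ∀ b ∈ X, a < b → G a < b := by
  obtain ⟨X, hX⟩ := zorn_subset {X : Set M | ∀ a ∈ X, ∀ b ∈ X, a < b → G a < b} (by
    intro c hc hch
    refine ⟨⋃₀ c, ?_, fun s hs => subset_sUnion_of_mem hs⟩
    rintro a ⟨s, hs, ha⟩ b ⟨t, ht, hb⟩ hab
    rcases hch.total hs ht with h | h
    · exact hc ht a (h ha) b hb hab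
    · exact hc hs a ha b (h hb) hab)
  refine ⟨X, ?_, hX.prop⟩
  by_contra hne
  have hlt : #X < #M := lt_of_le_of_ne (mk_set_le X) hne
  have hlt2 : #(X ∪ G '' X : Set M) < #M :=
    (mk_union_le _ _).trans_lt (add_lt_of_lt h0 hlt (mk_image_le.trans_lt hlt))
  obtain ⟨a, ha⟩ := hb _ hlt2
  have hmem : insert a X ∈ {X : Set M | ∀ a ∈ X, ∀ b ∈ X, a < b → G a < b} := by
    intro x hx y hy hxy
    rcases hx with rfl | hx
    · rcases hy with rfl | hy
      · exact absurd hxy (lt_irrefl _)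
      · exact absurd (hxy.trans (ha y (Or.inl hy))) (lt_irrefl _)
    · rcases hy with rfl | hy
      · exact ha _ (Or.inr ⟨x, hx, rfl⟩)
      · exact hX.prop x hx y hy hxy
  have := hX.le_of_ge hmem (subset_insert a X) (mem_insert a X)
  exact absurd (ha a (Or.inl this)) (lt_irrefl _)

lemma double_star {M : Type u} [LinearOrder M]
    (hb : ∀ s : Set M, #s < #M → ∃ a, ∀ x ∈ s, x < a) (h1 : ℵ₁ < #M)
    (d : M → M → ℕ) (f : M → M) :
    ∃ j r, ∀ ξ, ∃ s' s, ξ < s' ∧ s' < s ∧ f s' < s ∧ f r < s ∧ d r s = j ∧ d s' s = j := by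
  have h0 : ℵ₀ < #M := aleph0_lt_aleph_one.trans h1
  by_contra hcon
  push Not at hcon
  choose g hg using hcon
  have hG : ∀ r, ∃ a, ∀ j, g j r < a := by
    intro r
    obtain ⟨a, ha⟩ := hb (range fun j => g j r)
      (lt_of_le_of_lt (mk_le_aleph0_iff.2 (countable_range _).to_subtype) h0)
    exact ⟨a, fun j => ha _ ⟨j, rfl⟩⟩
  choose G hG using hG
  obtain ⟨X, hX, hXG⟩ := spread hb h0.le G
  obtain ⟨Y, hYX, hY⟩ := le_mk_iff_exists_subset.1 (h1.le.trans hX.ge)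
  have hlt2 : #(Y ∪ f '' Y : Set M) < #M :=
    (mk_union_le _ _).trans_lt (add_lt_of_lt h0.le (hY ▸ h1) (mk_image_le.trans_lt (hY ▸ h1)))
  obtain ⟨s, hs⟩ := hb _ hlt2
  have key : ∀ a ∈ Y, ∀ b ∈ Y, a < b → d a s ≠ d b s := by
    intro a ha b hb hab heq
    exact hg (d a s) a b s ((hG a _).trans (hXG a (hYX ha) b (hYX hb) hab))
      (hs b (Or.inl hb)) (hs _ (Or.inr ⟨b, hb, rfl⟩)) (hs _ (Or.inr ⟨a, ha, rfl⟩)) rfl heq.symm
  have hinj : Function.Injective (fun y : Y => d y s) := by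
    intro a b hab
    rcases lt_trichotomy a.1 b.1 with h | h | h
    · exact absurd hab (key a a.2 b b.2 h)
    · exact Subtype.ext h
    · exact absurd hab.symm (key b b.2 a a.2 h)
  have : #Y ≤ ℵ₀ := mk_le_aleph0_iff.2 hinj.countable
  rw [hY] at this
  exact absurd this (not_le.2 aleph0_lt_aleph_one)

/-- Canonization. -/
lemma canon {V M : Type u} (hV : (#V).IsStrongLimit) (h0 : ℵ₀ < #V) (hMV : #M < #V)
    [Nonempty M]
    (T : M → Set V) (hT : ∀ η, #(T η) < #V) (hcov : ∀ x, ∃ η, x ∈ T η) (c : V → V → ℕ) :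
    ∃ (S : M → Set V) (piece : V → M) (f : M → M) (d : M → M → ℕ),
      (∀ η, ∀ x ∈ S η, piece x = η) ∧ (∀ η, S η ⊆ T (f η)) ∧
      (∀ η, max (#(T η)) (max (#M) ℵ₀) < #(S η)) ∧
      ∀ η δ, ∀ x ∈ S η, ∀ y ∈ S δ, x ∈ T δ → c x y = d η δ := by
  have hMne : #M ≠ 0 := mk_ne_zero M
  have hprod : #V = #(M × V) := by
    rw [mk_prod, lift_id, lift_id, mul_eq_right h0.le hMV.le hMne]
  obtain ⟨e⟩ := Cardinal.eq.1 hprod
  let piece : V → M := fun x => (e x).1
  have hpiece : ∀ η, #V ≤ #{x | piece x = η} := by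
    intro η
    refine mk_le_of_injective (f := fun v => ⟨e.symm (η, v), by simp [piece]⟩) ?_
    intro a b hab
    simpa using hab
  choose rank hrank using hcov
  let θ : M → Cardinal.{u} := fun η => max (max (#(T η)) (max (#M) ℵ₀)) #(M → ℕ)
  have hθ : ∀ η, θ η < #V := fun η =>
    max_lt (max_lt (hT η) (max_lt hMV h0)) (mk_fun_nat_lt hV h0 hMV)
  have hθ0 : ∀ η, ℵ₀ ≤ θ η := fun η =>
    (le_max_right _ _).trans ((le_max_right _ _).trans (le_max_left _ _))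
  have step1 : ∀ η, ∃ S : Set V, (∀ x ∈ S, piece x = η) ∧ θ η < #S ∧
      ∃ a : (T η → ℕ) × M, ∀ x ∈ S, ((fun t : T η => c t x), rank x) = a := by
    intro η
    have hc : #((T η → ℕ) × M) < #V := by
      rw [mk_prod, lift_id, lift_id]
      exact mul_lt_of_lt h0.le (mk_fun_nat_lt hV h0 (hT η)) hMV
    obtain ⟨t, ht, h1, a, ha⟩ := pigeon {x | piece x = η}
      (fun x => ((fun t : T η => c t x), rank x)) (max (θ η) #((T η → ℕ) × M))
      ((hθ0 η).trans (le_max_left _ _)) (le_max_right _ _)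
      ((max_lt (hθ η) hc).trans_le (hpiece η))
    exact ⟨t, fun x hx => ht hx, (le_max_left _ _).trans_lt h1, a, ha⟩
  choose S1 hS1 hS1θ a ha using step1
  have hne : ∀ η, (S1 η).Nonempty := by
    intro η
    rw [← Set.nonempty_coe_sort, ← mk_ne_zero_iff]
    exact ((bot_le.trans_lt (hS1θ η))).ne'
  choose y hy using hne
  have step2 : ∀ η, ∃ S ⊆ S1 η, θ η < #S ∧ ∃ b : M → ℕ, ∀ x ∈ S, (fun δ => c x (y δ)) = b :=
    fun η => pigeon (S1 η) (fun x δ => c x (y δ)) (θ η) (hθ0 η) (le_max_right _ _) (hS1θ η)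
  choose S hS hSθ d hd using step2
  refine ⟨S, piece, fun η => (a η).2, d, fun η x hx => hS1 η x (hS η hx), ?_,
    fun η => (le_max_left _ _).trans_lt (hSθ η), ?_⟩
  · intro η x hx
    have := congrArg Prod.snd (ha η x (hS η hx))
    simp only at this
    show x ∈ T (a η).2
    rw [← this]
    exact hrank x
  · intro η δ x hx z hz hxT
    have h1 := congrFun (congrArg Prod.fst (ha δ z (hS δ hz))) ⟨x, hxT⟩
    have h2 := congrFun (congrArg Prod.fst (ha δ (y δ) (hy δ))) ⟨x, hxT⟩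
    have h3 := congrFun (hd η x hx) δ
    simp only at h1 h2 h3
    rw [h1, ← h2, h3]

end Pool.Agent.H66Z.TP
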